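import Pool.Agent.H48.SymDP.Defs
import Pool.Agent.H48.SymDP.Irr.Main
import Pool.Agent.H64.SymDP.Main
import Pool.Agent.H64.SymDP.Bridge
import Pool.Agent.H95.SymDP.ConicK

/-!
# A unirational irrational del Pezzo surface over the rationals with rational symmetric square

The surface is `X₁ X₂ = X₃ X₀`, `3 X₄² + X₃² - 6 X₃ X₀ - 4 (X₁ + X₂) X₀ + 21 X₀² = 0` in `P⁴`
(the forms `q₀`).
-/

namespace Pool.Agent.Results.MP_15d1b3_ag.SymSquareRational

open Pool.Agent.H48.SymDP

/-- The surface is not rational: its function field is generated by `x, y, z` with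
`y ^ 2 + 3 z ^ 2 = x ^ 3 + 2`, and is not purely transcendental (`no_conic`). -/
theorem not_rational : ¬ Pool.Agent.H64.SymDP.X₀.Rational := by
  rintro ⟨K, hK, hA, ⟨P⟩, ⟨e⟩⟩
  obtain ⟨θ, hθ⟩ := IsAlgClosed.exists_pow_nat_eq (-3 : AlgebraicClosure ℚ) (n := 2) (by norm_num)
  obtain ⟨x, y, z, hrel, hgen⟩ := Pool.Agent.H64.SymDP.exists_xyz P
  obtain ⟨x', y', z', h⟩ := exists_conic e x y z hrel hgen θ hθ
  exact no_conic h

/-- The smooth complete intersection `q₀` of two quadrics in `P ^ 4` over `ℚ` (a del Pezzo surface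
of degree four) is unirational and irrational, and its symmetric square is rational. -/
theorem result : ∃ X : DelPezzoFour, X.q = q₀ ∧ X.Unirational ∧ ¬ X.Rational ∧
    X.SymRational 2 :=
  ⟨Pool.Agent.H64.SymDP.X₀, rfl, Pool.Agent.H64.SymDP.X₀_unirational, not_rational,
    Pool.Agent.H64.SymDP.X₀_symRational⟩

end Pool.Agent.Results.MP_15d1b3_ag.SymSquareRational
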